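import Pool.Agent.H.MP_e0d2b2_an.Ineq

namespace Pool.Agent.H.MP_e0d2b2_an

open Real

noncomputable def F (j m : ℕ) (x : ℝ) : ℝ :=
  ((j + m).choose m : ℝ) * x ^ m * (1 - x) ^ j * (1 + j * x)

theorem quasi (j m : ℕ) (a b s t c : ℝ) (a0 : 0 ≤ a) (a1 : a ≤ 1) (b0 : 0 ≤ b) (b1 : b ≤ 1)
    (s0 : 0 ≤ s) (t0 : 0 ≤ t) (st : s + t = 1) (c0 : 0 < c) (ha : c ≤ F j m a)
    (hb : c ≤ F j m b) : c ≤ F j m (s * a + t * b) := by
  have a2 : 0 ≤ 1 - a := by linarith
  have b2 : 0 ≤ 1 - b := by linarith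
  have a3 : 0 ≤ 1 + j * a := by positivity
  have b3 : 0 ≤ 1 + j * b := by positivity
  have g1 := geom_mean_le_arith_mean2_weighted s0 t0 a0 b0 st
  have g2 := geom_mean_le_arith_mean2_weighted s0 t0 a2 b2 st
  have g3 := geom_mean_le_arith_mean2_weighted s0 t0 a3 b3 st
  have C0 : (0 : ℝ) < ((j + m).choose m : ℝ) := by
    exact_mod_cast Nat.choose_pos (by omega)
  have e2 : s * (1 - a) + t * (1 - b) = 1 - (s * a + t * b) := by linear_combination st
  have e3 : s * (1 + j * a) + t * (1 + j * b) = 1 + j * (s * a + t * b) := by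
    linear_combination st
  rw [e2] at g2
  rw [e3] at g3
  calc c = c ^ s * c ^ t := by rw [← rpow_add c0, st, rpow_one]
    _ ≤ F j m a ^ s * F j m b ^ t := by
      have : 0 ≤ F j m a := c0.le.trans ha
      gcongr
    _ = (((j + m).choose m : ℝ) ^ s * ((j + m).choose m : ℝ) ^ t) * (a ^ s * b ^ t) ^ m *
        ((1 - a) ^ s * (1 - b) ^ t) ^ j * ((1 + j * a) ^ s * (1 + j * b) ^ t) := by
      unfold F
      rw [mul_rpow (by positivity) a3, mul_rpow (by positivity) (by positivity),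
        mul_rpow C0.le (by positivity), mul_rpow (by positivity) b3,
        mul_rpow (by positivity) (by positivity), mul_rpow C0.le (by positivity),
        mul_pow, mul_pow, rpow_pow_comm a0, rpow_pow_comm b0, rpow_pow_comm a2,
        rpow_pow_comm b2]
      ring
    _ ≤ _ := by
      rw [← rpow_add C0, st, rpow_one]
      unfold F
      have : 0 ≤ 1 - (s * a + t * b) := le_trans (by positivity) g2
      gcongr

theorem claim (j : ℕ) (hj : 0 < j) (p : ℝ) (p0 : 0 < p) (p1 : p < 1) :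
    ∃ m : ℕ, 2 / exp 1 ≤ F j m p := by
  have j0 : (0 : ℝ) < j := by exact_mod_cast hj
  have q0 : 0 < 1 - p := by linarith
  set m := ⌊j * p / (1 - p)⌋₊ with hm
  have h1 : (m : ℝ) ≤ j * p / (1 - p) := Nat.floor_le (by positivity)
  have h2 : j * p / (1 - p) < m + 1 := Nat.lt_floor_add_one _
  rw [le_div_iff₀ q0] at h1
  rw [div_lt_iff₀ q0] at h2
  have m0 : (0 : ℝ) ≤ m := Nat.cast_nonneg m
  set a : ℝ := m / (j + m) with ha
  set b : ℝ := (m + 1) / (j + (m + 1)) with hb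
  have ap : a ≤ p := by rw [ha, div_le_iff₀ (by positivity)]; nlinarith
  have pb : p < b := by rw [hb, lt_div_iff₀ (by positivity)]; nlinarith
  have a0 : 0 ≤ a := by positivity
  have b1 : b ≤ 1 := by rw [hb, div_le_one (by positivity)]; linarith
  have e0 := exp_pos 1
  have Fa : 2 / exp 1 ≤ F j m a := by
    rw [div_le_iff₀' e0]
    have : F j m a = W j m * (1 + j * (m / (j + m))) := by
      unfold F W
      rw [show 1 - a = j / (j + m) by rw [ha]; field_simp; ring]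
    rw [this]; exact V_all j m hj
  have Fb : 2 / exp 1 ≤ F j m b := by
    rw [div_le_iff₀' e0]
    have hc : ((j + m + 1 : ℕ) : ℝ) * ((j + m).choose m : ℕ) =
        ((j + m + 1).choose (m + 1) : ℕ) * ((m + 1 : ℕ) : ℝ) := by
      exact_mod_cast Nat.add_one_mul_choose_eq (j + m) m
    push_cast at hc
    have : F j m b = W j (m + 1) * (1 + j * (((m + 1 : ℕ) : ℝ) / (j + ((m + 1 : ℕ) : ℝ)))) := by
      unfold F W
      push_cast
      rw [show 1 - b = j / (j + (m + 1)) by rw [hb]; field_simp; ring, ← hb, ← add_assoc j m 1]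
      have : ((j + m).choose m : ℝ) = ((j + m + 1).choose (m + 1) : ℕ) * b := by
        rw [hb]; field_simp; linear_combination hc
      rw [this]; ring
    rw [this]; exact V_all j (m + 1) hj
  have d0 : 0 < b - a := by linarith
  refine ⟨m, ?_⟩
  have := quasi j m a b ((b - p) / (b - a)) ((p - a) / (b - a)) _ a0 (by linarith) (by linarith)
    b1 (div_nonneg (by linarith) d0.le) (div_nonneg (by linarith) d0.le)
    (by field_simp; ring) (by positivity) Fa Fb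
  rwa [show (b - p) / (b - a) * a + (p - a) / (b - a) * b = p by field_simp; ring] at this

/-- termwise bound -/
theorem term (M x : ℝ) (hM : 1 < M) (j : ℕ) (hj : 0 < j) (x0 : 0 ≤ x)
    (h : ∀ m : ℕ, ((j + m).choose m : ℝ) * x ≤ M ^ (m + 1)) :
    x ≤ exp 1 / 2 * ((1 - M⁻¹) ^ j * (M + j)) := by
  have M0 : 0 < M := by linarith
  obtain ⟨m, hm⟩ := claim j hj M⁻¹ (by positivity) (inv_lt_one_of_one_lt₀ hM)
  have q0 : 0 ≤ 1 - M⁻¹ := sub_nonneg.2 (inv_le_one_of_one_le₀ hM.le)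
  have e0 := exp_pos 1
  have h1 : 2 / exp 1 * x ≤ (1 - M⁻¹) ^ j * (M + j) := by
    calc _ ≤ F j m M⁻¹ * x := mul_le_mul_of_nonneg_right hm x0
      _ = (((j + m).choose m : ℝ) * x) * (M⁻¹ ^ m * (1 - M⁻¹) ^ j * (1 + j * M⁻¹)) := by
        unfold F; ring
      _ ≤ M ^ (m + 1) * (M⁻¹ ^ m * (1 - M⁻¹) ^ j * (1 + j * M⁻¹)) :=
        mul_le_mul_of_nonneg_right (h m) (by positivity)
      _ = _ := by rw [inv_pow]; field_simp; ring
  calc x = exp 1 / 2 * (2 / exp 1 * x) := by field_simp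
    _ ≤ _ := by gcongr

theorem hasSum_bd (M : ℝ) (hM : 1 < M) :
    HasSum (fun j : ℕ => exp 1 / 2 * ((1 - M⁻¹) ^ (j + 1) * (M + ((j + 1 : ℕ) : ℝ))))
      (exp 1 * M * (M - 1)) := by
  have M0 : 0 < M := by linarith
  have i0 : 0 < M⁻¹ := by positivity
  have q0 : 0 ≤ 1 - M⁻¹ := sub_nonneg.2 (inv_le_one_of_one_le₀ hM.le)
  have q1 : 1 - M⁻¹ < 1 := by linarith
  have h1 := hasSum_geometric_of_lt_one q0 q1
  have h2 := hasSum_coe_mul_geometric_of_norm_lt_one (r := 1 - M⁻¹)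
    (by rw [Real.norm_eq_abs, abs_of_nonneg q0]; exact q1)
  have h3 := ((h1.mul_left ((M + 1) * (1 - M⁻¹))).add (h2.mul_left (1 - M⁻¹))).mul_left
    (exp 1 / 2)
  have e1 : (fun j : ℕ => exp 1 / 2 * ((1 - M⁻¹) ^ (j + 1) * (M + ((j + 1 : ℕ) : ℝ)))) =
      fun i : ℕ => exp 1 / 2 * ((M + 1) * (1 - M⁻¹) * (1 - M⁻¹) ^ i +
        (1 - M⁻¹) * (i * (1 - M⁻¹) ^ i)) := by
    funext i; push_cast; ring
  have e2 : exp 1 * M * (M - 1) = exp 1 / 2 * ((M + 1) * (1 - M⁻¹) * (1 - (1 - M⁻¹))⁻¹ +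
      (1 - M⁻¹) * ((1 - M⁻¹) / (1 - (1 - M⁻¹)) ^ 2)) := by
    rw [sub_sub_cancel]; field_simp; ring
  rw [e1, e2]; exact h3

end Pool.Agent.H.MP_e0d2b2_an
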