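import Mathlib

namespace Pool.Agent.H.MP_e0d2b2_an

open Real Stirling Nat

noncomputable def W (j m : ℕ) : ℝ :=
  ((j + m).choose m : ℝ) * ((m : ℝ) / (j + m)) ^ m * ((j : ℝ) / (j + m)) ^ j

theorem fact_eq (n : ℕ) (hn : 0 < n) :
    (n ! : ℝ) = stirlingSeq n * (√(2 * n) * (n / exp 1) ^ n) := by
  rw [stirlingSeq, div_mul_cancel₀]
  have : (0 : ℝ) < n := by exact_mod_cast hn
  positivity

theorem st_pos (n : ℕ) (hn : 0 < n) : 0 < stirlingSeq n := by
  obtain ⟨k, rfl⟩ := Nat.exists_eq_add_one_of_ne_zero hn.ne'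
  exact stirlingSeq'_pos k

theorem W_eq (j m : ℕ) (hj : 0 < j) (hm : 0 < m) :
    W j m * (stirlingSeq j * stirlingSeq m * (√(2 * j) * √(2 * m))) =
      stirlingSeq (j + m) * √(2 * (j + m)) := by
  have h := Nat.add_choose_mul_factorial_mul_factorial j m
  have h' : ((j + m).choose m : ℝ) * j ! * m ! = (j + m)! := by exact_mod_cast h
  rw [fact_eq j hj, fact_eq m hm, fact_eq (j + m) (by omega)] at h'
  have j0 : (0 : ℝ) < j := by exact_mod_cast hj
  have m0 : (0 : ℝ) < m := by exact_mod_cast hm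
  have e0 := exp_pos 1
  push_cast at h'
  have key : ((m : ℝ) / (j + m)) ^ m * ((j : ℝ) / (j + m)) ^ j * ((j + m) / exp 1) ^ (j + m) =
      (j / exp 1) ^ j * (m / exp 1) ^ m := by
    rw [pow_add]
    calc _ = (((j : ℝ) / (j + m)) * ((j + m) / exp 1)) ^ j *
        (((m : ℝ) / (j + m)) * ((j + m) / exp 1)) ^ m := by rw [mul_pow, mul_pow]; ring
      _ = _ := by congr 2 <;> field_simp
  have pos : (0 : ℝ) < ((j + m) / exp 1) ^ (j + m) := by positivity
  refine mul_right_cancel₀ pos.ne' ?_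
  unfold W
  linear_combination h' + ((j + m).choose m : ℝ) *
    (stirlingSeq j * stirlingSeq m * (√(2 * j) * √(2 * m))) * key

theorem W_symm (j m : ℕ) : W j m = W m j := by
  unfold W
  rw [← Nat.choose_symm_add, add_comm j m, add_comm (j : ℝ) m]; ring

theorem st_anti {a b : ℕ} (ha : 0 < a) (h : a ≤ b) : stirlingSeq b ≤ stirlingSeq a := by
  obtain ⟨k, rfl⟩ := Nat.exists_eq_add_one_of_ne_zero ha.ne'
  obtain ⟨l, rfl⟩ := Nat.exists_eq_add_one_of_ne_zero (show b ≠ 0 by omega)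
  exact stirlingSeq'_antitone (show k ≤ l by omega)

/-- reduction: with `s² = 2t` -/
theorem V_of (j m : ℕ) (hj : 0 < j) (hm : 0 < m)
    (h : ∀ s : ℝ, 0 < s → s ^ 2 * (j + m) = 2 * (j * m) →
      2 * s * (stirlingSeq j * stirlingSeq m) ≤ exp 1 * stirlingSeq (j + m) * (1 + s ^ 2 / 2)) :
    2 ≤ exp 1 * (W j m * (1 + j * (m / (j + m)))) := by
  have j0 : (0 : ℝ) < j := by exact_mod_cast hj
  have m0 : (0 : ℝ) < m := by exact_mod_cast hm
  have hW := W_eq j m hj hm
  set a := √(2 * (j : ℝ))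
  set b := √(2 * (m : ℝ))
  set c := √(2 * ((j : ℝ) + m))
  have a0 : 0 < a := by positivity
  have b0 : 0 < b := by positivity
  have c0 : 0 < c := by positivity
  have a2 : a ^ 2 = 2 * j := sq_sqrt (by positivity)
  have b2 : b ^ 2 = 2 * m := sq_sqrt (by positivity)
  have c2 : c ^ 2 = 2 * (j + m) := sq_sqrt (by positivity)
  have s2 : (a * b / c) ^ 2 * (j + m) = 2 * (j * m) := by
    rw [div_pow, mul_pow, a2, b2, c2]; field_simp
  have h1 := h (a * b / c) (by positivity) s2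
  have t : (j : ℝ) * (m / (j + m)) = (a * b / c) ^ 2 / 2 := by
    field_simp; rw [a2, b2, c2]; ring
  rw [t]
  have P : 0 < a * b / c * (stirlingSeq j * stirlingSeq m) := by
    have := st_pos j hj; have := st_pos m hm; positivity
  have hW' : W j m * (a * b / c * (stirlingSeq j * stirlingSeq m)) = stirlingSeq (j + m) := by
    field_simp; linear_combination hW
  refine le_of_mul_le_mul_right ?_ P
  calc _ = 2 * (a * b / c) * (stirlingSeq j * stirlingSeq m) := by ring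
    _ ≤ _ := h1
    _ = _ := by rw [← hW']; ring

theorem V_one (m : ℕ) (hm : 0 < m) :
    2 ≤ exp 1 * (W 1 m * (1 + (1 : ℕ) * (m / ((1 : ℕ) + m)))) := by
  refine V_of 1 m one_pos hm fun s s0 hs => ?_
  have m1 : (1 : ℝ) ≤ m := by exact_mod_cast hm
  have p1 := st_pos m hm
  have p2 := st_pos (m + 1) (by omega)
  have r := log_stirlingSeq_sdiff_le m
  have r2 : 1 - 1 / (12 * (m : ℝ) * (m + 1)) ≤ stirlingSeq (m + 1) / stirlingSeq m := by
    have := add_one_le_exp (log (stirlingSeq (m + 1)) - log (stirlingSeq m))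
    rw [exp_sub, exp_log p2, exp_log p1] at this
    linarith
  rw [le_div_iff₀ p1] at r2
  rw [stirlingSeq_one, add_comm 1 m]
  push_cast at hs
  have q0 : 0 < √2 := by positivity
  have q2 : √2 ^ 2 = 2 := sq_sqrt (by norm_num)
  set u := s / √2 with hu
  have u0 : 0 < u := by positivity
  have u2 : u ^ 2 * (1 + m) = m := by rw [hu, div_pow, q2]; linarith
  have e1 : s ^ 2 / 2 = u ^ 2 := by rw [hu, div_pow, q2]
  have e2 : 2 * s * (exp 1 / √2 * stirlingSeq m) = exp 1 * (2 * u * stirlingSeq m) := by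
    rw [hu]; ring
  rw [e1, e2, mul_assoc (exp 1)]
  refine mul_le_mul_of_nonneg_left ?_ (exp_pos 1).le
  have u2' : u ^ 2 = m / (1 + m) := by field_simp; linarith
  set d := 1 / (12 * (m : ℝ) * (m + 1)) with hd
  have d0 : 0 < d := by positivity
  have d1 : d ≤ 1 := by rw [hd, div_le_one (by positivity)]; nlinarith
  have key : 2 * u ≤ (1 - d) * (1 + u ^ 2) := by
    refine le_of_sq_le_sq (a := 2 * u) ?_ (by nlinarith [sq_nonneg u])
    have : (2 * u) ^ 2 ≤ (1 - 2 * d) * (1 + u ^ 2) ^ 2 := by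
      rw [mul_pow, u2', hd, ← sub_nonneg]
      have : (1 - 2 * (1 / (12 * (m : ℝ) * (m + 1)))) * (1 + m / (1 + m)) ^ 2 -
          2 ^ 2 * (m / (1 + m)) = (2 * m ^ 2 + 2 * m - 1) / (6 * m * (m + 1) ^ 3) := by
        field_simp; ring
      rw [this]
      exact div_nonneg (by nlinarith) (by positivity)
    nlinarith [sq_nonneg (d * (1 + u ^ 2))]
  calc 2 * u * stirlingSeq m ≤ (1 - d) * (1 + u ^ 2) * stirlingSeq m :=
        mul_le_mul_of_nonneg_right key p1.le
    _ = (1 - d) * stirlingSeq m * (1 + u ^ 2) := by ring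
    _ ≤ _ := mul_le_mul_of_nonneg_right r2 (by positivity)

theorem st23 : 2 * (stirlingSeq 2 * stirlingSeq 3) ≤ exp 1 * √π * √2 := by
  have e0 := exp_pos 1
  have e1 := exp_one_lt_d9
  have h2 : stirlingSeq 2 = exp 1 ^ 2 / 4 := by
    rw [stirlingSeq, show (2 * ((2 : ℕ) : ℝ)) = 2 ^ 2 by norm_num, sqrt_sq (by norm_num)]
    norm_num [factorial]; field_simp; norm_num; ring
  have q0 : 0 < √6 := by positivity
  have h3 : stirlingSeq 3 = 2 * exp 1 ^ 3 / (9 * √6) := by
    rw [stirlingSeq, show (2 * ((3 : ℕ) : ℝ)) = 6 by norm_num]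
    norm_num [factorial]; field_simp; norm_num; ring
  have h4 : exp 1 ^ 4 ≤ 55 := by
    have : exp 1 ^ 4 ≤ 2.72 ^ 4 := pow_le_pow_left₀ e0.le (by linarith) 4
    linarith [show (2.72 : ℝ) ^ 4 ≤ 55 by norm_num]
  have h5 : 55 ≤ 9 * (√π * √2 * √6) := by
    rw [← sqrt_mul pi_pos.le, ← sqrt_mul (by positivity)]
    have : (55 / 9 : ℝ) ≤ √(π * 2 * 6) := le_sqrt_of_sq_le (by nlinarith [pi_gt_d2])
    linarith
  rw [h2, h3]
  have : 2 * (exp 1 ^ 2 / 4 * (2 * exp 1 ^ 3 / (9 * √6))) = exp 1 * (exp 1 ^ 4 / (9 * √6)) := by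
    field_simp; ring
  rw [this, mul_assoc]
  refine mul_le_mul_of_nonneg_left ?_ e0.le
  rw [div_le_iff₀ (by positivity)]
  nlinarith

theorem V_big (j m : ℕ) (hj : 2 ≤ j) (hm : 3 ≤ m) :
    2 ≤ exp 1 * (W j m * (1 + j * (m / (j + m)))) := by
  refine V_of j m (by omega) (by omega) fun s s0 _ => ?_
  have a1 := st_anti two_pos hj
  have a2 := st_anti three_pos hm
  have a3 := sqrt_pi_le_stirlingSeq (n := j + m) (by omega)
  have p1 := st_pos j (by omega)
  have p2 := st_pos m (by omega)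
  have a4 : stirlingSeq j * stirlingSeq m ≤ stirlingSeq 2 * stirlingSeq 3 :=
    mul_le_mul a1 a2 p2.le (p1.le.trans a1)
  have q2 : √2 ^ 2 = 2 := sq_sqrt (by norm_num)
  have a5 : √2 * s ≤ 1 + s ^ 2 / 2 := by nlinarith [sq_nonneg (s - √2)]
  have e0 := exp_pos 1
  calc 2 * s * (stirlingSeq j * stirlingSeq m) ≤ s * (2 * (stirlingSeq 2 * stirlingSeq 3)) := by
        nlinarith
    _ ≤ s * (exp 1 * √π * √2) := mul_le_mul_of_nonneg_left st23 s0.le
    _ = exp 1 * √π * (√2 * s) := by ring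
    _ ≤ _ := by have := st_pos (j + m) (by omega); gcongr

theorem V_all (j m : ℕ) (hj : 0 < j) : 2 ≤ exp 1 * (W j m * (1 + j * (m / (j + m)))) := by
  have sy : ∀ j m : ℕ, exp 1 * (W j m * (1 + j * (m / (j + m)))) =
      exp 1 * (W m j * (1 + m * (j / (m + j)))) := by
    intro j m; rw [W_symm, add_comm (j : ℝ) m]; ring
  have e1 := exp_one_gt_d9
  rcases Nat.eq_zero_or_pos m with rfl | hm
  · have : (j : ℝ) ≠ 0 := by exact_mod_cast hj.ne'
    simp [W, this]; linarith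
  by_cases j1 : j = 1
  · subst j1; exact V_one m hm
  by_cases m1 : m = 1
  · subst m1; rw [sy]; exact V_one j hj
  by_cases m3 : 3 ≤ m
  · exact V_big j m (by omega) m3
  by_cases j3 : 3 ≤ j
  · rw [sy]; exact V_big m j (by omega) j3
  obtain rfl : j = 2 := by omega
  obtain rfl : m = 2 := by omega
  norm_num [W, Nat.choose]; linarith

end Pool.Agent.H.MP_e0d2b2_an
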