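import Mathlib

namespace Pool.Agent.H.MP_e0d2b2_an

open Metric
open scoped ENNReal

universe u

theorem nil_res {A : Type*} [NormedRing A] [NormedAlgebra ℂ A] (a : A) (h : a * a = 0) (M : ℝ)
    (hM : ∀ w : ℂ, ‖w‖ ≤ 1 → ‖1 + w • a‖ ≤ M) :
    spectrum ℂ a ⊆ ball 0 1 ∧ ∀ z : ℂ, 1 ≤ ‖z‖ → ‖resolvent a z‖ ≤ M := by
  have key : ∀ z : ℂ, z ≠ 0 → ∃ v : Aˣ, (v : A) = algebraMap ℂ A z - a ∧
      ((v⁻¹ : Aˣ) : A) = z⁻¹ • (1 + z⁻¹ • a) := by
    intro z hz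
    refine ⟨⟨algebraMap ℂ A z - a, z⁻¹ • (1 + z⁻¹ • a), ?_, ?_⟩, rfl, rfl⟩ <;>
    · rw [Algebra.algebraMap_eq_smul_one]
      simp only [mul_smul_comm, smul_mul_assoc, mul_add, add_mul, sub_mul, mul_sub, one_mul,
        mul_one, h, smul_zero, smul_add, smul_sub, smul_smul]
      match_scalars <;> field_simp <;> ring
  refine ⟨fun z hz => ?_, fun z hz => ?_⟩
  · by_cases h0 : z = 0
    · simp [h0]
    · obtain ⟨v, hv, -⟩ := key z h0
      exact absurd hz (spectrum.notMem_iff.2 (hv ▸ v.isUnit))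
  · have h0 : z ≠ 0 := by rintro rfl; norm_num at hz
    obtain ⟨v, hv, hv'⟩ := key z h0
    have hi : ‖z⁻¹‖ ≤ 1 := by rw [norm_inv]; exact inv_le_one_of_one_le₀ hz
    rw [resolvent, ← hv, Ring.inverse_unit, hv', norm_smul]
    exact (mul_le_of_le_one_left (norm_nonneg _) hi).trans (hM _ hi)

theorem build {E : Type u} [NormedAddCommGroup E] [NormedSpace ℂ E] (e0 e1 : E) (M c : ℝ)
    (M0 : 0 ≤ M) (hinj : ∀ a b : ℂ, a • e0 + b • e1 = 0 → a = 0 ∧ b = 0)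
    (hM : ∀ a b w : ℂ, ‖w‖ ≤ 1 → ‖a • e0 + (b + w * a) • e1‖ ≤ M * ‖a • e0 + b • e1‖)
    (h0 : ‖e0‖ ≤ c) (h1 : 1 ≤ ‖e1‖) :
    ∃ (X : Type u) (_ : NormedAddCommGroup X) (_ : NormedSpace ℂ X) (_ : CompleteSpace X)
      (_ : Nontrivial X) (T : X →L[ℂ] X), spectrum ℂ T ⊆ ball 0 1 ∧
      (∀ z : ℂ, 1 ≤ ‖z‖ → ‖resolvent T z‖ ≤ M) ∧ 1 ≤ ‖T‖ * c := by
  let φ : (ℂ × ℂ) →ₗ[ℂ] E :=
    (LinearMap.toSpanSingleton ℂ E e0).coprod (LinearMap.toSpanSingleton ℂ E e1)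
  have φa : ∀ x : ℂ × ℂ, φ x = x.1 • e0 + x.2 • e1 := fun x => rfl
  have inj : Function.Injective φ := by
    rw [injective_iff_map_eq_zero]
    intro x hx
    exact Prod.ext (hinj _ _ hx).1 (hinj _ _ hx).2
  let ψ := LinearEquiv.ofInjective φ inj
  let N : (ℂ × ℂ) →ₗ[ℂ] (ℂ × ℂ) := (LinearMap.inr ℂ ℂ ℂ).comp (LinearMap.fst ℂ ℂ ℂ)
  let T : LinearMap.range φ →L[ℂ] LinearMap.range φ :=
    LinearMap.toContinuousLinearMap (ψ.toLinearMap ∘ₗ N ∘ₗ ψ.symm.toLinearMap)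
  have Ta : ∀ x, T (ψ x) = ψ (0, x.1) := by
    intro x
    show ψ (N (ψ.symm (ψ x))) = _
    rw [ψ.symm_apply_apply]; rfl
  have nψ : ∀ x, ‖ψ x‖ = ‖x.1 • e0 + x.2 • e1‖ := fun x => rfl
  have hT : T * T = 0 := by
    refine ContinuousLinearMap.ext fun y => ?_
    obtain ⟨x, rfl⟩ := ψ.surjective y
    show T (T (ψ x)) = 0
    rw [Ta, Ta]; exact map_zero ψ
  have hb : ∀ w : ℂ, ‖w‖ ≤ 1 → ‖1 + w • T‖ ≤ M := by
    intro w hw
    refine ContinuousLinearMap.opNorm_le_bound _ M0 fun y => ?_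
    obtain ⟨x, rfl⟩ := ψ.surjective y
    have : (1 + w • T) (ψ x) = ψ (x.1, x.2 + w * x.1) := by
      show ψ x + w • T (ψ x) = _
      rw [Ta, ← map_smul, ← map_add]
      congr 1
      ext <;> simp
    rw [this, nψ, nψ]
    exact hM _ _ _ hw
  obtain ⟨r1, r2⟩ := nil_res T hT M hb
  refine ⟨LinearMap.range φ, inferInstance, inferInstance, FiniteDimensional.complete ℂ _,
    ψ.symm.surjective.nontrivial, T, r1, r2, ?_⟩
  have h2 := T.le_opNorm (ψ (1, 0))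
  rw [Ta, nψ, nψ] at h2
  simp only [zero_smul, one_smul, zero_add, add_zero] at h2
  exact h1.trans (h2.trans (mul_le_mul_of_nonneg_left h0 (norm_nonneg _)))

abbrev J : Type u := ULift.{u} (ℕ × {w : ℂ // ‖w‖ ≤ 1})

theorem nat_bd (M : ℝ) (hM : 1 < M) (n : ℕ) :
    (n : ℝ) / M ^ n ≤ (Real.exp 1 * Real.log M)⁻¹ := by
  have l0 := Real.log_pos hM
  have e0 := Real.exp_pos 1
  have h := Real.add_one_le_exp (n * Real.log M - 1)
  rw [Real.exp_sub, ← Real.log_pow, Real.exp_log (by positivity), Real.log_pow,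
    le_div_iff₀ e0] at h
  rw [div_le_iff₀ (by positivity), inv_mul_eq_div, le_div_iff₀ (by positivity)]
  nlinarith

theorem lower (M : ℝ) (hM : 1 < M) :
    ∃ (X : Type u) (_ : NormedAddCommGroup X) (_ : NormedSpace ℂ X) (_ : CompleteSpace X)
      (_ : Nontrivial X) (T : X →L[ℂ] X), spectrum ℂ T ⊆ ball 0 1 ∧
      (∀ z : ℂ, 1 ≤ ‖z‖ → ‖resolvent T z‖ ≤ M) ∧ 1 ≤ ‖T‖ * (Real.exp 1 * Real.log M)⁻¹ := by
  have M0 : 0 < M := by linarith
  have Mc : (M : ℂ) ≠ 0 := by exact_mod_cast M0.ne'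
  have b0 : ∀ t : J.{u}, ‖(t.down.1 : ℂ) * t.down.2.1 / (M : ℂ) ^ t.down.1‖ ≤
      (Real.exp 1 * Real.log M)⁻¹ := by
    intro t
    refine le_trans ?_ (nat_bd M hM t.down.1)
    rw [norm_div, norm_mul, norm_pow, Complex.norm_natCast, Complex.norm_real,
      Real.norm_of_nonneg M0.le]
    gcongr
    exact mul_le_of_le_one_right (Nat.cast_nonneg _) t.down.2.2
  have b1 : ∀ t : J.{u}, ‖1 / (M : ℂ) ^ t.down.1‖ ≤ 1 := by
    intro t
    rw [norm_div, norm_pow, Complex.norm_real, Real.norm_of_nonneg M0.le, norm_one]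
    exact div_le_one_of_le₀ (one_le_pow₀ hM.le) (by positivity)
  let e0 : lp (fun _ : J.{u} => ℂ) ∞ :=
    ⟨fun t => (t.down.1 : ℂ) * t.down.2.1 / (M : ℂ) ^ t.down.1,
      memℓp_infty ⟨_, by rintro _ ⟨t, rfl⟩; exact b0 t⟩⟩
  let e1 : lp (fun _ : J.{u} => ℂ) ∞ :=
    ⟨fun t => 1 / (M : ℂ) ^ t.down.1, memℓp_infty ⟨_, by rintro _ ⟨t, rfl⟩; exact b1 t⟩⟩
  have ev : ∀ (a b : ℂ) (t : J.{u}), (a • e0 + b • e1 : lp (fun _ : J.{u} => ℂ) ∞) t =
      (a * (t.down.1 * t.down.2.1) + b) / (M : ℂ) ^ t.down.1 := by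
    intro a b t
    show a * (_ / _) + b * (_ / _) = _
    ring
  have ne : Nonempty J.{u} := ⟨⟨0, 0, by simp⟩⟩
  refine build e0 e1 M _ M0.le (fun a b h => ?_) (fun a b w hw => ?_)
    (lp.norm_le_of_forall_le' _ b0) ?_
  · have h1 := ev a b ⟨0, 0, by simp⟩
    have h2 := ev a b ⟨1, 1, by simp⟩
    rw [h] at h1 h2
    simp [Mc] at h1 h2
    have hb : b = 0 := h1.symm
    refine ⟨?_, hb⟩
    have := h2.symm
    simpa [hb, Mc] using this
  · refine lp.norm_le_of_forall_le' _ fun t => ?_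
    obtain ⟨n, v, hv⟩ := t
    have n0 : ((n : ℂ) + 1) ≠ 0 := by exact_mod_cast Nat.succ_ne_zero n
    have hw' : ‖((n : ℂ) * v + w) / (n + 1)‖ ≤ 1 := by
      rw [norm_div, show ((n : ℂ) + 1) = ((n + 1 : ℕ) : ℂ) by push_cast; rfl,
        Complex.norm_natCast]
      refine div_le_one_of_le₀ ((norm_add_le _ _).trans ?_) (Nat.cast_nonneg _)
      rw [norm_mul, Complex.norm_natCast]
      push_cast
      have := mul_le_of_le_one_right (Nat.cast_nonneg (α := ℝ) n) hv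
      linarith
    have h := lp.norm_apply_le_norm (by simp) (a • e0 + b • e1) ⟨n + 1, _, hw'⟩
    rw [ev] at h ⊢
    refine le_trans (le_of_eq ?_) (mul_le_mul_of_nonneg_left h M0.le)
    have : (a * ((n : ℂ) * v) + (b + w * a)) / (M : ℂ) ^ n =
        M * ((a * (((n + 1 : ℕ) : ℂ) * (((n : ℂ) * v + w) / (n + 1))) + b) /
          (M : ℂ) ^ (n + 1)) := by
      push_cast; field_simp; ring
    rw [this, norm_mul, Complex.norm_real, Real.norm_of_nonneg M0.le]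
  · have h := lp.norm_apply_le_norm (by simp) e1 ⟨0, 0, by simp⟩
    simpa [e1] using h

end Pool.Agent.H.MP_e0d2b2_an
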