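import Pool.Agent.H.MP_e0d2b2_an.Claim

namespace Pool.Agent.H.MP_e0d2b2_an

open Metric Nat

variable {A : Type*} [NormedRing A] [NormedAlgebra ℂ A] [CompleteSpace A]

noncomputable def U (a : A) (w : ℂ) : A := Ring.inverse (1 - w • a)

omit [CompleteSpace A] in
theorem U_comm (a : A) (w : ℂ) : Commute a (U a w) := by
  unfold U
  by_cases h : IsUnit (1 - w • a)
  · obtain ⟨u, hu⟩ := h
    have : Commute a (u : A) := by
      rw [hu]; exact (Commute.one_right a).sub_right ((Commute.refl a).smul_right w)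
    rw [← hu, Ring.inverse_unit]
    exact this.units_inv_right
  · rw [Ring.inverse_non_unit _ h]; exact Commute.zero_right a

theorem U_deriv (a : A) (w : ℂ) (h : IsUnit (1 - w • a)) :
    HasDerivAt (U a) (a * U a w ^ 2) w := by
  have H₁ : HasFDerivAt Ring.inverse _ (1 - w • a) := hasFDerivAt_ringInverse (𝕜 := ℂ) h.unit
  have H₂ : HasDerivAt (fun w : ℂ => 1 - w • a) (-a) w := by
    simpa using ((hasDerivAt_id w).smul_const a).const_sub 1
  refine (H₁.comp_hasDerivAt w H₂).congr_deriv ?_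
  have e : ((h.unit⁻¹ : Aˣ) : A) = U a w := by
    unfold U; rw [← Ring.inverse_unit, h.unit_spec]
  simp only [neg_apply, ContinuousLinearMap.mulLeftRight_apply, e]
  rw [mul_neg, neg_mul, neg_neg, ← (U_comm a w).eq, mul_assoc, pow_two]

theorem U_pow_deriv (a : A) (w : ℂ) (h : IsUnit (1 - w • a)) (k : ℕ) :
    HasDerivAt (fun w => U a w ^ k) ((k : ℂ) • (a * U a w ^ (k + 1))) w := by
  induction k with
  | zero => simpa using hasDerivAt_const w (1 : A)
  | succ k ih =>
    simp only [pow_succ (n := k)]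
    refine (ih.fun_mul (U_deriv a w h)).congr_deriv ?_
    rw [← mul_assoc, ← ((U_comm a w).pow_right k).eq]
    push_cast
    rw [add_smul, one_smul, smul_mul_assoc]
    congr 1
    · rw [mul_assoc, pow_succ (n := k + 1)]
    · rw [mul_assoc, ← pow_add]

theorem isOpen_S (a : A) : IsOpen {w : ℂ | IsUnit (1 - w • a)} :=
  Units.isOpen.preimage (f := fun w : ℂ => 1 - w • a) (by fun_prop)

theorem U_iter (a : A) (k j : ℕ) : ∀ w : ℂ, IsUnit (1 - w • a) →
    iteratedDeriv j (fun w => U a w ^ k) w = (k.ascFactorial j : ℂ) • (a ^ j * U a w ^ (k + j)) := by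
  induction j with
  | zero => intro w _; simp
  | succ j ih =>
    intro w h
    rw [iteratedDeriv_succ]
    have ev : iteratedDeriv j (fun w => U a w ^ k) =ᶠ[nhds w]
        fun w => (k.ascFactorial j : ℂ) • (a ^ j * U a w ^ (k + j)) :=
      Filter.eventually_of_mem ((isOpen_S a).mem_nhds h) fun z hz => ih z hz
    rw [ev.deriv_eq]
    refine (((U_pow_deriv a w h (k + j)).const_mul (a ^ j)).fun_const_smul
      (k.ascFactorial j : ℂ)).deriv.trans ?_
    rw [mul_smul_comm, smul_smul, ascFactorial_succ, ← mul_assoc, ← pow_succ, add_assoc]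
    push_cast
    rw [mul_comm ((k : ℂ) + j)]

theorem cauchy (a : A) (M : ℝ) (hs : spectrum ℂ a ⊆ ball 0 1)
    (hM : ∀ z : ℂ, 1 ≤ ‖z‖ → ‖resolvent a z‖ ≤ M) (j m : ℕ) :
    ((j + m).choose m : ℝ) * ‖a ^ j‖ ≤ M ^ (m + 1) := by
  have key : ∀ w : ℂ, w ≠ 0 → 1 - w • a = w • (algebraMap ℂ A w⁻¹ - a) := by
    intro w hw
    rw [smul_sub, Algebra.algebraMap_eq_smul_one, smul_smul, mul_inv_cancel₀ hw, one_smul]
  have hu : ∀ w : ℂ, ‖w‖ ≤ 1 → IsUnit (1 - w • a) := by
    intro w hw
    by_cases h0 : w = 0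
    · simp [h0]
    have : w⁻¹ ∉ spectrum ℂ a := fun h => by
      have h1 := mem_ball_zero_iff.1 (hs h)
      rw [norm_inv] at h1
      exact absurd (one_le_inv₀ (norm_pos_iff.2 h0) |>.2 hw) (not_le.2 h1)
    rw [key w h0]
    exact (spectrum.notMem_iff.1 this).smul (Units.mk0 w h0)
  have hd : DiffContOnCl ℂ (fun w => U a w ^ (m + 1)) (ball 0 1) := by
    refine DifferentiableOn.diffContOnCl fun w hw => ?_
    rw [closure_ball _ one_ne_zero, mem_closedBall_zero_iff] at hw
    exact (U_pow_deriv a w (hu w hw) _).differentiableAt.differentiableWithinAt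
  have hb : ∀ w ∈ sphere (0 : ℂ) 1, ‖U a w ^ (m + 1)‖ ≤ M ^ (m + 1) := by
    intro w hw
    rw [mem_sphere_zero_iff_norm] at hw
    have h0 : w ≠ 0 := by rintro rfl; simp at hw
    have h1 := spectrum.units_smul_resolvent_self (r := (Units.mk0 w h0)⁻¹) (a := a)
    have h2 : U a w = w⁻¹ • resolvent a w⁻¹ := by
      simpa [resolvent, U, Units.smul_def] using h1.symm
    have h3 : ‖U a w‖ ≤ M := by
      rw [h2, norm_smul, norm_inv, hw, inv_one, one_mul]
      exact hM _ (by rw [norm_inv, hw, inv_one])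
    exact (norm_pow_le' _ (Nat.succ_pos m)).trans (pow_le_pow_left₀ (norm_nonneg _) h3 _)
  have h := Complex.norm_iteratedDeriv_le_of_forall_mem_sphere_norm_le j one_pos hd hb
  rw [U_iter a (m + 1) j 0 (by simp), ascFactorial_eq_factorial_mul_choose] at h
  simp only [U, zero_smul, sub_zero, Ring.inverse_one, one_pow, mul_one, div_one, norm_smul,
    Complex.norm_natCast] at h
  push_cast at h
  rw [mul_assoc, add_comm m j, choose_symm_add] at h
  exact le_of_mul_le_mul_left h (by exact_mod_cast factorial_pos j)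

theorem upper [NormOneClass A] (a : A) (M : ℝ) (hs : spectrum ℂ a ⊆ ball 0 1)
    (hM : ∀ z : ℂ, 1 ≤ ‖z‖ → ‖resolvent a z‖ ≤ M) :
    Summable (fun j : ℕ => ‖a ^ (j + 1)‖) ∧ ∑' j : ℕ, ‖a ^ (j + 1)‖ ≤ Real.exp 1 * M * (M - 1) := by
  have hc := cauchy a M hs hM
  have h1 : 1 ≤ M := by simpa using hc 0 0
  rcases h1.eq_or_lt with rfl | h1
  · have : a = 0 := by
      by_contra h0
      obtain ⟨m, hm⟩ := exists_nat_gt ‖a‖⁻¹
      have h2 := hc 1 m
      rw [add_comm 1 m, choose_succ_self_right, pow_one, one_pow] at h2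
      have p := norm_pos_iff.2 h0
      rw [inv_lt_iff_one_lt_mul₀ p] at hm
      push_cast at h2
      nlinarith
    simp [this, summable_zero]
  · have hb : ∀ j : ℕ, ‖a ^ (j + 1)‖ ≤
        Real.exp 1 / 2 * ((1 - M⁻¹) ^ (j + 1) * (M + ((j + 1 : ℕ) : ℝ))) := fun j =>
      term M _ h1 (j + 1) (succ_pos j) (norm_nonneg _) (hc (j + 1))
    have hs := (hasSum_bd M h1).summable.of_nonneg_of_le (fun _ => norm_nonneg _) hb
    exact ⟨hs, hasSum_le hb hs.hasSum (hasSum_bd M h1)⟩

end Pool.Agent.H.MP_e0d2b2_an
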